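import Pool.Agent.Z15P.Z15.W.Stm

/-!
# Task W_Ui (helper25)
-/

set_option autoImplicit false

open FF FF.PP MvPolynomial Pool.Agent.Z15P.Z15.H Pool.Agent.Z15P.Z15.J Pool.Agent.Z15P.Z15.J.Stm Pool.Agent.Z15P.Z15.S

namespace Pool.Agent.Z15P.Z15.W

theorem sys_map {k K ι α : Type} [Field k] [Field K] [Algebra k K] [Fintype ι] [Fintype α]
    {F : α → MvPolynomial ι k} {d : α → ℕ} {b : ι → ℕ} {s m : ℕ} (h : Sys F d b s m) :
    Sys (fun a => map (algebraMap k K) (F a)) d b s m where
  hom := fun a => (h.hom a).map _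
  pos := h.pos
  mix := fun a μ hμ => h.mix a μ (support_map_subset _ _ hμ)
  sizes := h.sizes

theorem flag_map {k K ι α : Type} [Field k] [Field K] [Algebra k K]
    {F : α → MvPolynomial ι k} {b : ι → ℕ} {s : ℕ} {Λ : ℕ → ι → k} (h : Flag F b s Λ) :
    Flag (fun a => map (algebraMap k K) (F a)) b s (fun j i => algebraMap k K (Λ j i)) where
  ne := fun j hj h0 => h.ne j hj (by
    funext i
    exact (algebraMap k K).injective (by rw [Pi.zero_apply, map_zero]; exact congrFun h0 i))
  supp := fun j hj i hi => by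
    show algebraMap k K (Λ j i) = 0
    rw [h.supp j hj i hi, map_zero]
  van := fun a A _ _ c => by
    letI : Algebra k A := Algebra.compHom A (algebraMap k K)
    haveI : IsScalarTower k K A := IsScalarTower.of_algebraMap_eq fun x => rfl
    rw [aeval_map_algebraMap]
    exact h.van a A c

theorem flag_indep {k ι α : Type} [Field k] {F : α → MvPolynomial ι k} {b : ι → ℕ} {s : ℕ} {Λ : ℕ → ι → k}
    (h : Flag F b s Λ) : LinearIndependent k fun j : Fin (s + 1) => Λ j := by
  rw [Fintype.linearIndependent_iff]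
  intro g hg j
  have hj : (j : ℕ) ≤ s := Nat.lt_succ_iff.1 j.2
  obtain ⟨i, hi⟩ : ∃ i, Λ j i ≠ 0 := by
    by_contra hn
    push Not at hn
    exact h.ne j hj (funext hn)
  have hbi : b i = j := by
    by_contra hb
    exact hi (h.supp j hj i hb)
  have h1 := congrFun hg i
  rw [Finset.sum_apply, Pi.zero_apply, Finset.sum_eq_single j] at h1
  · rw [Pi.smul_apply, smul_eq_mul] at h1
    exact (mul_eq_zero.1 h1).resolve_right hi
  · intro j' _ hj'
    have : b i ≠ j' := by
      rw [hbi]
      exact fun h => hj' (Fin.ext h.symm)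
    rw [Pi.smul_apply, h.supp j' (Nat.lt_succ_iff.1 j'.2) i this, smul_zero]
  · intro h
    exact absurd (Finset.mem_univ _) h

/-- the main theorem from the theorem for flags and the existence of flags -/
theorem t_W_Ui : W_Ui := by
  intro hP hF k _ _ _ ι α _ _ F d b s m hS hd
  obtain ⟨Λ, hΛ⟩ := hF k ι α F d b s m hS hd
  obtain ⟨a0, -⟩ := hd
  haveI : Nonempty α := ⟨a0⟩
  refine ⟨Λ, flag_indep hΛ, ?_, ?_⟩
  · intro a c
    have h1 := hΛ.van a k (fun n => if h : n < s + 1 then c ⟨n, h⟩ else 0)
    have e2 : ∀ (f : ι → k) (G : MvPolynomial ι k), aeval f G = eval f G := fun f G => by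
      rw [← coe_aeval_eq_eval]
      rfl
    rw [e2] at h1
    rw [← h1]
    refine congrArg (fun f => eval f (F a)) (funext fun i => ?_)
    rw [Finset.sum_range]
    refine Finset.sum_congr rfl fun j _ => ?_
    rw [dif_pos j.2]
    rfl
  · intro K _ _ l hl E _ _ P hP1 hP2 hP3
    haveI : Infinite K := Infinite.of_injective _ (algebraMap k K).injective
    exact hP s K ι α (fun a => map (algebraMap k K) (F a)) d b m (sys_map hS)
      (fun j i => algebraMap k K (Λ j i)) (flag_map hΛ) l hl E P hP1 hP2 hP3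

end Pool.Agent.Z15P.Z15.W
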